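import Pool.Agent.Lib.MP_46ca68_co.Limits

/-! An arrangement of 12 hyperplanes in `ℝ^6` whose magnitude Euler characteristics do not
eventually alternate in sign. -/

set_option autoImplicit false

namespace Pool.Agent.Results.MP_46ca68_co.NotEventuallyAlternating

open Pool.Agent.Lib.MP_46ca68_co

/-- There is an arrangement of 12 linear hyperplanes in `ℝ^6`, with intersection `0`, such that
`(-1)^ℓ χ_ℓ < 0` for infinitely many `ℓ`. -/
theorem result : ∃ A : Arrangement 6, A.hyps.card = 12 ∧ (⨅ H ∈ A.hyps, H) = ⊥ ∧
    ∀ ℓ₀ : ℕ, ∃ ℓ ≥ ℓ₀, (-1 : ℤ) ^ ℓ * A.chi ℓ < 0 := by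
  classical
  refine ⟨arr, ?_, ?_, not_eventually_nonneg⟩
  · unfold arr ofForms
    rw [Finset.card_image_of_injective _ ff_inj]
    rfl
  · rw [eq_bot_iff]
    intro x hx
    have hmem : ∀ i, ff i x = 0 := by
      intro i
      have h1 : LinearMap.ker (ff i) ∈ arr.hyps := by
        unfold arr ofForms
        exact Finset.mem_image_of_mem _ (Finset.mem_univ i)
      have h2 : x ∈ LinearMap.ker (ff i) := by
        have := (Submodule.mem_iInf _).1 hx (LinearMap.ker (ff i))
        exact (Submodule.mem_iInf _).1 this h1
      exact LinearMap.mem_ker.1 h2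
    have e1 : x 1 = 0 := by
      have := hmem (0, 0)
      rw [ff_zero, lin_apply] at this
      simpa [ca, cb] using this
    have e0 : x 0 = 0 := by
      have := hmem (2, 0)
      rw [ff_zero, lin_apply] at this
      simpa [ca, cb] using this
    have ez : ∀ e : Fin 4, x (Fin.natAdd 2 e : Fin 6) = 0 := by
      intro e
      have := hmem (e, 1)
      rw [ff_one] at this
      exact this
    rw [Submodule.mem_bot]
    funext k
    fin_cases k
    · exact e0
    · exact e1
    · exact ez 0
    · exact ez 1
    · exact ez 2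
    · exact ez 3

end Pool.Agent.Results.MP_46ca68_co.NotEventuallyAlternating
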